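import Mathlib
import Pool.Agent.Lib.MP_8363a4_al.Defs
import Pool.Agent.Lib.MP_8363a4_al.H23Upper
import Pool.Agent.Lib.MP_8363a4_al.H36Main
import Pool.Agent.Lib.MP_8363a4_al.H51Final

/-!
The symbol length of `K^M_2(ℂ(x₁,x₂,x₃))/2` is exactly three.
-/

namespace Pool.Agent.Results.MP_8363a4_al.ExactThreeTwoTwo

open Pool.Agent.Lib.MP_8363a4_al

theorem result :
    (∀ ξ : KMmod (RatFun 3) 2 2, IsSumOfSymbols ξ 3) ∧
      ∃ ξ : KMmod (RatFun 3) 2 2, ∀ r : ℕ, IsSumOfSymbols ξ r → 3 ≤ r :=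
  ⟨H23.upper, H51.lower' @H36.main 3 le_rfl⟩

end Pool.Agent.Results.MP_8363a4_al.ExactThreeTwoTwo
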