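import Mathlib
import Pool.Agent.Lib.MP_8363a4_al.Defs
import Pool.Agent.Lib.MP_8363a4_al.H36Main
import Pool.Agent.Lib.MP_8363a4_al.H8All

/-!
For `2 ≤ n < m` some class of `K^M_n(ℂ(x₁,…,xₘ))/2` needs at least `m - n + 2` symbols.
-/

namespace Pool.Agent.Results.MP_8363a4_al.ModTwoLower

open Pool.Agent.Lib.MP_8363a4_al

theorem result (m n : ℕ) (hn : 2 ≤ n) (hnm : n < m) :
    ∃ ξ : KMmod (RatFun m) n 2, (∃ r : ℕ, IsSumOfSymbols ξ r) ∧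
      ∀ r : ℕ, IsSumOfSymbols ξ r → m - n + 2 ≤ r := by
  obtain ⟨ξ, hξ⟩ := H8.lowerAll @H36.main m n hn hnm
  exact ⟨ξ, H8.exists_sum ξ, hξ⟩

end Pool.Agent.Results.MP_8363a4_al.ModTwoLower
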