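import Mathlib
import Pool.Agent.Lib.MP_8363a4_al.Defs
import Pool.Agent.Lib.MP_8363a4_al.H2Inst

/-!
Every class in `K^M_3(ℂ(x₁,x₂,x₃))/3` is a sum of four symbols, so `λ(3,3,3) ≤ 4`.
-/

namespace Pool.Agent.Results.MP_8363a4_al.ThreeThreeThree

open Pool.Agent.Lib.MP_8363a4_al

theorem result : ∀ ξ : KMmod (RatFun 3) 3 3, IsSumOfSymbols ξ 4 := by
  intro ξ
  obtain ⟨o, ho⟩ := H2.exists_omega 3
  exact H2.four_symbols (RatFun 3) ho (H2.c3_frac ℂ) ξ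

end Pool.Agent.Results.MP_8363a4_al.ThreeThreeThree
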